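import Mathlib

set_option autoImplicit false

namespace Pool.Agent.Results.MP_f664e7_co.NonDescentStatistic

open List

/-- A (linear) permutation: a word of distinct positive integers. -/
abbrev LinPerm : Type := {w : List ℕ+ // w.Nodup}

/-- A cyclic permutation: a word of distinct positive integers, up to rotation. -/
abbrev CycPerm : Type := {c : Cycle ℕ+ // c.Nodup}

/-- The cyclic permutation `[π]` of a linear permutation `π`. -/
def cyc (π : LinPerm) : CycPerm := ⟨(π.1 : Cycle ℕ+), Cycle.nodup_coe_iff.2 π.2⟩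

/-- Standardization: every letter is replaced by its rank among the letters of the word. -/
def std (w : List ℕ+) : List ℕ := w.map (fun x => (w.filter (fun y => decide (y ≤ x))).length)

/-- `cst` is a cyclic permutation statistic: it depends only on the relative order. -/
def IsStatistic {α : Type} (cst : CycPerm → α) : Prop :=
  ∀ π σ : LinPerm, std π.1 = std σ.1 → cst (cyc π) = cst (cyc σ)

/-- The set of cyclic shuffles of `[π]` and `[σ]`. -/
def shuffles (π σ : LinPerm) : Set CycPerm :=
  {t | ∃ τ : LinPerm, cyc τ = t ∧ τ.1.length = π.1.length + σ.1.length ∧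
    (∃ p : List ℕ+, p ~r π.1 ∧ p <+ τ.1) ∧ (∃ s : List ℕ+, s ~r σ.1 ∧ s <+ τ.1)}

/-- The multiplicity of the value `v` in the distribution of `cst` over the set `S`. -/
noncomputable def mult {α : Type} (cst : CycPerm → α) (S : Set CycPerm) (v : α) : ℕ∞ :=
  {t | t ∈ S ∧ cst t = v}.encard

/-- `cst` is cyclic shuffle-compatible. -/
def IsShuffleCompatible {α : Type} (cst : CycPerm → α) : Prop :=
  ∀ π σ π' σ' : LinPerm, π.1.Disjoint σ.1 → π'.1.Disjoint σ'.1 →
    cst (cyc π) = cst (cyc π') → cst (cyc σ) = cst (cyc σ') →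
    π.1.length = π'.1.length → σ.1.length = σ'.1.length →
    ∀ v : α, mult cst (shuffles π σ) v = mult cst (shuffles π' σ') v

/-- The cyclic descent set of a word, a subset of `{1, …, n}`; indices are taken modulo `n`. -/
def cDes (w : List ℕ+) : Finset ℕ :=
  (Finset.Icc 1 w.length).filter (fun i => w.getD (i - 1) 1 > w.getD (i % w.length) 1)

/-- The multiset of the cyclic descent sets of all rotations. -/
def cDesCyc (c : CycPerm) : Multiset (Finset ℕ) := c.1.lists.map cDes

/-! ### The counterexample -/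

/-- Twelve words of length five. -/
def S : List (List ℕ) :=
  [[5,1,2,3,4],[5,1,3,2,4],[5,1,4,2,3],[5,2,1,4,3],[5,2,3,4,1],[5,2,4,3,1],
   [5,3,1,4,2],[5,3,2,1,4],[5,3,4,2,1],[5,4,1,3,2],[5,4,2,1,3],[5,4,3,1,2]]

open Classical in
/-- The statistic: does some rotation have its standardization in `S`? -/
noncomputable def cst (c : CycPerm) : Bool :=
  decide (∃ w : List ℕ+, (w : Cycle ℕ+) = c.1 ∧ std w ∈ S)

theorem cst_eq_true {c : CycPerm} :
    cst c = true ↔ ∃ w : List ℕ+, (w : Cycle ℕ+) = c.1 ∧ std w ∈ S := by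
  classical
  simp [cst]

theorem std_length (w : List ℕ+) : (std w).length = w.length := by simp [std]

theorem length_of_mem_S {s : List ℕ} (h : s ∈ S) : s.length = 5 := by
  revert s; decide

/-- Computable form of the statistic on words. -/
def good (w : List ℕ+) : Bool := (List.range w.length).any (fun i => S.contains (std (w.rotate i)))

theorem cst_cyc (τ : LinPerm) : cst (cyc τ) = good τ.1 := by
  rw [Bool.eq_iff_iff, cst_eq_true]
  unfold good
  rw [List.any_eq_true]
  constructor
  · rintro ⟨w, hw, hs⟩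
    have hr : τ.1 ~r w := (Cycle.coe_eq_coe.1 hw).symm
    obtain ⟨n, hn⟩ := hr
    have hlen : τ.1.length = 5 := by
      have := length_of_mem_S hs
      rw [std_length] at this
      rw [← this, ← hn, List.length_rotate]
    refine ⟨n % τ.1.length, ?_, ?_⟩
    · rw [List.mem_range]; apply Nat.mod_lt; omega
    · rw [List.rotate_mod, hn]
      simpa using hs
  · rintro ⟨i, _, hi⟩
    refine ⟨τ.1.rotate i, ?_, by simpa using hi⟩
    exact Cycle.coe_eq_coe.2 (List.IsRotated.forall τ.1 i)

theorem good_false_of_length {w : List ℕ+} (h : w.length ≠ 5) : good w = false := by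
  rw [Bool.eq_false_iff]
  intro hg
  unfold good at hg
  rw [List.any_eq_true] at hg
  obtain ⟨i, _, hi⟩ := hg
  have : std (w.rotate i) ∈ S := by simpa using hi
  have := length_of_mem_S this
  rw [std_length, List.length_rotate] at this
  exact h this

/-! ### Relabelling -/

/-- Relabelling of a linear permutation. -/
def rl (e : Equiv.Perm ℕ+) (π : LinPerm) : LinPerm := ⟨π.1.map e, π.2.map e.injective⟩

theorem nodup_map (e : Equiv.Perm ℕ+) (c : Cycle ℕ+) (h : c.Nodup) : (c.map e).Nodup := by
  induction c using Quotient.inductionOn' with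
  | h l =>
    rw [Cycle.mk''_eq_coe] at h ⊢
    rw [Cycle.map_coe, Cycle.nodup_coe_iff]
    exact (Cycle.nodup_coe_iff.1 h).map e.injective

/-- Relabelling of a cyclic permutation. -/
def rc (e : Equiv.Perm ℕ+) (c : CycPerm) : CycPerm := ⟨c.1.map e, nodup_map e c.1 c.2⟩

theorem rc_cyc (e : Equiv.Perm ℕ+) (τ : LinPerm) : rc e (cyc τ) = cyc (rl e τ) := by
  apply Subtype.ext
  simp [rc, cyc, rl]

theorem exists_cyc (c : CycPerm) : ∃ τ : LinPerm, cyc τ = c := by
  obtain ⟨c, hc⟩ := c
  induction c using Quotient.inductionOn' with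
  | h l =>
    exact ⟨⟨l, Cycle.nodup_coe_iff.1 hc⟩, rfl⟩

theorem rl_symm (e : Equiv.Perm ℕ+) (τ : LinPerm) : rl e.symm (rl e τ) = τ := by
  apply Subtype.ext
  simp [rl]

theorem rc_symm (e : Equiv.Perm ℕ+) (c : CycPerm) : rc e.symm (rc e c) = c := by
  obtain ⟨τ, rfl⟩ := exists_cyc c
  rw [rc_cyc, rc_cyc, rl_symm]

theorem rc_symm' (e : Equiv.Perm ℕ+) (c : CycPerm) : rc e (rc e.symm c) = c := by
  have := rc_symm e.symm c
  rwa [Equiv.symm_symm] at this

theorem rc_injective (e : Equiv.Perm ℕ+) : Function.Injective (rc e) := by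
  intro c d h
  have := congrArg (rc e.symm) h
  rwa [rc_symm, rc_symm] at this

theorem mem_shuffles_rl (e : Equiv.Perm ℕ+) {π σ : LinPerm} {t : CycPerm}
    (h : t ∈ shuffles π σ) : rc e t ∈ shuffles (rl e π) (rl e σ) := by
  obtain ⟨τ, rfl, hlen, ⟨p, hp, hp'⟩, ⟨s, hs, hs'⟩⟩ := h
  refine ⟨rl e τ, (rc_cyc e τ).symm, ?_, ⟨p.map e, hp.map _, hp'.map _⟩, ⟨s.map e, hs.map _, hs'.map _⟩⟩
  simpa [rl] using hlen

theorem shuffles_rl (e : Equiv.Perm ℕ+) (π σ : LinPerm) :
    shuffles (rl e π) (rl e σ) = rc e '' shuffles π σ := by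
  ext t
  constructor
  · intro h
    refine ⟨rc e.symm t, ?_, rc_symm' e t⟩
    have := mem_shuffles_rl e.symm h
    rwa [rl_symm, rl_symm] at this
  · rintro ⟨u, hu, rfl⟩
    exact mem_shuffles_rl e hu

theorem mult_rl (e : Equiv.Perm ℕ+) (π σ : LinPerm)
    (h : ∀ t ∈ shuffles π σ, cst (rc e t) = cst t) (v : Bool) :
    mult cst (shuffles (rl e π) (rl e σ)) v = mult cst (shuffles π σ) v := by
  unfold mult
  rw [shuffles_rl]
  have key : {t | t ∈ rc e '' shuffles π σ ∧ cst t = v} =
      rc e '' {t | t ∈ shuffles π σ ∧ cst t = v} := by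
    ext t
    simp only [Set.mem_ofPred_eq, Set.mem_image]
    constructor
    · rintro ⟨⟨u, hu, hut⟩, hv⟩
      refine ⟨u, ⟨hu, ?_⟩, hut⟩
      rw [← h u hu, hut]
      exact hv
    · rintro ⟨u, ⟨hu, hv⟩, hut⟩
      refine ⟨⟨u, hu, hut⟩, ?_⟩
      rw [← hut, h u hu]
      exact hv
  rw [key, (rc_injective e).encard_image]

theorem exists_relabel (L L' : List ℕ+) (h : L.Nodup) (h' : L'.Nodup) (hl : L.length = L'.length) :
    ∃ e : Equiv.Perm ℕ+, L.map e = L' := by
  obtain ⟨e, he⟩ := Equiv.Perm.exists_extending_pair (fun i : Fin L.length => L.get i)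
    (fun i : Fin L.length => L'.get (i.cast hl)) (List.nodup_iff_injective_get.1 h)
    ((List.nodup_iff_injective_get.1 h').comp (Fin.cast_injective hl))
  refine ⟨e, List.ext_get (by simpa using hl) ?_⟩
  intro n h1 h2
  simpa using he ⟨n, by simpa using h1⟩

/-! ### Cyclic shuffles through filters -/

theorem filter_isRotated (p : ℕ+ → Bool) {l l' : List ℕ+} (h : l ~r l') :
    l.filter p ~r l'.filter p := by
  obtain ⟨n, rfl⟩ := h
  rw [← List.rotate_mod]
  rcases Nat.eq_zero_or_pos l.length with h0 | h0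
  · have : l = [] := List.length_eq_zero_iff.1 h0
    subst this
    simp
  rw [List.rotate_eq_drop_append_take (Nat.mod_lt _ h0).le, List.filter_append]
  conv_lhs => rw [← List.take_append_drop (n % l.length) l, List.filter_append]
  exact List.isRotated_append

theorem eq_filter_of_sublist {p l q : List ℕ+} (hl : l.Nodup) (hp : p ~r q) (hs : p <+ l) :
    p = l.filter (fun x => decide (x ∈ q)) := by
  rw [← hl.perm_iff_eq_of_sublist hs List.filter_sublist]
  rw [List.perm_ext_iff_of_nodup (hs.nodup hl) (hl.filter _)]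
  intro a
  rw [List.mem_filter, decide_eq_true_iff, ← hp.mem_iff]
  exact ⟨fun h => ⟨hs.subset h, h⟩, fun h => h.2⟩

theorem cyc_mem_shuffles_iff {π σ τ : LinPerm} :
    cyc τ ∈ shuffles π σ ↔ τ.1.length = π.1.length + σ.1.length ∧
      τ.1.filter (fun x => decide (x ∈ π.1)) ~r π.1 ∧
      τ.1.filter (fun x => decide (x ∈ σ.1)) ~r σ.1 := by
  constructor
  · rintro ⟨τ', hτ, hlen, ⟨p, hp, hp'⟩, ⟨s, hs, hs'⟩⟩
    have hr : τ.1 ~r τ'.1 := by
      have := congrArg Subtype.val hτ
      exact (Cycle.coe_eq_coe.1 this).symm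
    refine ⟨?_, ?_, ?_⟩
    · rw [hr.perm.length_eq, hlen]
    · refine (filter_isRotated _ hr).trans ?_
      rw [← eq_filter_of_sublist τ'.2 hp hp']
      exact hp
    · refine (filter_isRotated _ hr).trans ?_
      rw [← eq_filter_of_sublist τ'.2 hs hs']
      exact hs
  · rintro ⟨hlen, hp, hs⟩
    exact ⟨τ, rfl, hlen, ⟨_, hp, List.filter_sublist⟩, ⟨_, hs, List.filter_sublist⟩⟩

theorem perm_of_mem_shuffles {π σ τ : LinPerm} (hd : π.1.Disjoint σ.1)
    (h : cyc τ ∈ shuffles π σ) : τ.1 ~ π.1 ++ σ.1 := by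
  rw [cyc_mem_shuffles_iff] at h
  obtain ⟨hlen, hp, hs⟩ := h
  have hnd : (π.1 ++ σ.1).Nodup := List.Nodup.append π.2 σ.2 hd
  have hsub : (π.1 ++ σ.1) ⊆ τ.1 := by
    intro x hx
    rcases List.mem_append.1 hx with hx | hx
    · exact (List.mem_filter.1 (hp.mem_iff.2 hx)).1
    · exact (List.mem_filter.1 (hs.mem_iff.2 hx)).1
  have := (List.subperm_of_subset hnd hsub).perm_of_length_le (by rw [List.length_append]; omega)
  exact this.symm

/-! ### The finite check -/

/-- Is `b` a rotation of `a`? -/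
def isRot (a b : List ℕ+) : Bool := (List.range (b.length + 1)).any (fun i => decide (a.rotate i = b))

theorem isRot_iff (a b : List ℕ+) : isRot a b = true ↔ a ~r b := by
  unfold isRot
  rw [List.any_eq_true]
  constructor
  · rintro ⟨i, _, hi⟩
    exact ⟨i, by simpa using hi⟩
  · intro h
    obtain ⟨n, hn, h⟩ := List.isRotated_iff_mod.1 h
    refine ⟨n, ?_, by simpa using h⟩
    rw [List.mem_range]
    have : a.length = b.length := by rw [← h, List.length_rotate]
    omega

/-- Computable test for a word to be a cyclic shuffle (apart from the length condition). -/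
def chk (p s t : List ℕ+) : Bool :=
  isRot (t.filter (fun x => decide (x ∈ p))) p && isRot (t.filter (fun x => decide (x ∈ s))) s

/-- The words whose cyclic classes are the cyclic shuffles with value `v`. -/
def cand (p s : List ℕ+) (v : Bool) : List (List ℕ+) :=
  (permutations' [1,2,3,4]).filter (fun u => chk p s (5 :: u) && (good (5 :: u) == v))

set_option maxRecDepth 100000 in
theorem finite_check : ∀ L ∈ permutations' [(1:ℕ+),2,3,4,5], ∀ m ∈ [1,2,3,4], ∀ v : Bool,
    (cand (L.take m) (L.drop m) v).length = if m = 1 ∨ m = 4 then 2 else 6 := by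
  decide +kernel


theorem cons_rot_inj : ∀ u ∈ permutations' [(1:ℕ+),2,3,4], ∀ u' ∈ permutations' [(1:ℕ+),2,3,4],
    isRot (5 :: u) (5 :: u') = true → u = u' := by
  decide +kernel

theorem nodup_perms : (permutations' [(1:ℕ+),2,3,4]).Nodup := by
  decide +kernel

theorem nodup_five {u : List ℕ+} (h : u ∈ permutations' [(1:ℕ+),2,3,4]) : ((5:ℕ+) :: u).Nodup := by
  have h1 : ∀ u ∈ permutations' [(1:ℕ+),2,3,4], ((5:ℕ+) :: u).Nodup := by decide +kernel
  exact h1 u h

/-- The cyclic permutation `[5 :: u]`. -/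
def five (u : List ℕ+) : CycPerm :=
  if h : ((5:ℕ+) :: u).Nodup then cyc ⟨5 :: u, h⟩ else ⟨Cycle.nil, Cycle.nodup_nil⟩

theorem exists_five {τ : LinPerm} (h : τ.1 ~ [(1:ℕ+),2,3,4,5]) :
    ∃ u ∈ permutations' [(1:ℕ+),2,3,4], ∃ hu : ((5:ℕ+) :: u).Nodup, cyc τ = cyc ⟨5 :: u, hu⟩ := by
  have h5 : (5:ℕ+) ∈ τ.1 := by rw [h.mem_iff]; decide
  obtain ⟨s, r, hsr⟩ := List.append_of_mem h5
  have hperm : (5 :: (r ++ s)) ~ [(1:ℕ+),2,3,4,5] := by
    refine List.Perm.trans ?_ h
    rw [hsr]
    have : s ++ 5 :: r ~ (5 :: r) ++ s := List.perm_append_comm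
    simpa using this.symm
  have hu : (r ++ s) ~ [(1:ℕ+),2,3,4] := by
    have h2 : ([(1:ℕ+),2,3,4,5] : List ℕ+) ~ 5 :: [(1:ℕ+),2,3,4] := by decide
    exact List.Perm.cons_inv (hperm.trans h2)
  have hmem : (r ++ s) ∈ permutations' [(1:ℕ+),2,3,4] := List.mem_permutations'.2 hu
  refine ⟨r ++ s, hmem, nodup_five hmem, ?_⟩
  apply Subtype.ext
  show ((τ.1 : List ℕ+) : Cycle ℕ+) = ((5 :: (r ++ s) : List ℕ+) : Cycle ℕ+)
  rw [Cycle.coe_eq_coe, hsr]
  have : s ++ 5 :: r ~r (5 :: r) ++ s := List.isRotated_append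
  simpa using this

theorem mult_eq_cand {π σ : LinPerm} (hd : π.1.Disjoint σ.1)
    (h : π.1 ++ σ.1 ~ [(1:ℕ+),2,3,4,5]) (v : Bool) :
    mult cst (shuffles π σ) v = ((cand π.1 σ.1 v).length : ℕ∞) := by
  have hlen5 : π.1.length + σ.1.length = 5 := by
    have := h.length_eq
    simpa using this
  have hnd : (cand π.1 σ.1 v).Nodup := nodup_perms.filter _
  have key : {t | t ∈ shuffles π σ ∧ cst t = v} = five '' ((cand π.1 σ.1 v).toFinset : Set (List ℕ+)) := by
    ext t
    constructor
    · rintro ⟨ht, hv⟩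
      obtain ⟨τ, rfl⟩ := exists_cyc t
      have hp := (perm_of_mem_shuffles hd ht).trans h
      obtain ⟨u, hu, hnu, hτ⟩ := exists_five hp
      refine ⟨u, ?_, ?_⟩
      · rw [hτ] at ht hv
        rw [cyc_mem_shuffles_iff] at ht
        rw [cst_cyc] at hv
        simp only [List.coe_toFinset, Set.mem_ofPred_eq]
        unfold cand
        rw [List.mem_filter]
        refine ⟨hu, ?_⟩
        simp only [chk, Bool.and_eq_true, isRot_iff, beq_iff_eq]
        exact ⟨⟨ht.2.1, ht.2.2⟩, hv⟩
      · unfold five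
        rw [dif_pos hnu, hτ]
    · rintro ⟨u, hu, rfl⟩
      simp only [List.coe_toFinset, Set.mem_ofPred_eq] at hu
      unfold cand at hu
      rw [List.mem_filter] at hu
      obtain ⟨hu, hc⟩ := hu
      simp only [chk, Bool.and_eq_true, isRot_iff, beq_iff_eq] at hc
      have hnu := nodup_five hu
      have hf : five u = cyc ⟨5 :: u, hnu⟩ := by unfold five; rw [dif_pos hnu]
      rw [hf]
      refine ⟨?_, ?_⟩
      · rw [cyc_mem_shuffles_iff]
        refine ⟨?_, hc.1.1, hc.1.2⟩
        have : u.length = 4 := by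
          have := (List.mem_permutations'.1 hu).length_eq
          simpa using this
        simp [this, hlen5]
      · rw [cst_cyc]; exact hc.2
  unfold mult
  rw [key]
  have hinj : Set.InjOn five ((cand π.1 σ.1 v).toFinset : Set (List ℕ+)) := by
    intro u hu u' hu' heq
    simp only [List.coe_toFinset, Set.mem_ofPred_eq] at hu hu'
    unfold cand at hu hu'
    have hu := (List.mem_filter.1 hu).1
    have hu' := (List.mem_filter.1 hu').1
    have hnu := nodup_five hu
    have hnu' := nodup_five hu'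
    have hf : five u = cyc ⟨5 :: u, hnu⟩ := by unfold five; rw [dif_pos hnu]
    have hf' : five u' = cyc ⟨5 :: u', hnu'⟩ := by unfold five; rw [dif_pos hnu']
    rw [hf, hf'] at heq
    have := Cycle.coe_eq_coe.1 (congrArg Subtype.val heq)
    exact cons_rot_inj u hu u' hu' ((isRot_iff _ _).2 this)
  rw [hinj.encard_image, Set.encard_coe_eq_coe_finsetCard, List.toFinset_card_of_nodup hnd]

/-! ### Standardization -/

/-- The rank of `x` among the letters of `L`. -/
def rk (L : List ℕ+) (x : ℕ+) : ℕ := (L.filter (fun y => decide (y ≤ x))).length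

theorem std_eq (w : List ℕ+) : std w = w.map (rk w) := rfl

theorem rk_perm {L L' : List ℕ+} (h : L ~ L') (x : ℕ+) : rk L x = rk L' x :=
  (h.filter _).length_eq

theorem std_rotate (w : List ℕ+) (i : ℕ) : std (w.rotate i) = (std w).rotate i := by
  rw [std_eq, std_eq, ← List.map_rotate]
  apply List.map_congr_left
  intro x _
  exact rk_perm (List.IsRotated.forall w i).perm x

theorem rk_lt {L : List ℕ+} {x y : ℕ+} (hy : y ∈ L) (hxy : x < y) : rk L x < rk L y := by
  have hsub : L.filter (fun z => decide (z ≤ x)) <+ L.filter (fun z => decide (z ≤ y)) := by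
    apply List.monotone_filter_right
    intro z
    simp only [decide_eq_true_eq]
    intro hz
    exact hz.trans hxy.le
  unfold rk
  rcases lt_or_eq_of_le hsub.length_le with h | h
  · exact h
  · exfalso
    have heq := hsub.eq_of_length h
    have : y ∈ L.filter (fun z => decide (z ≤ y)) := by
      rw [List.mem_filter]; exact ⟨hy, by simp⟩
    rw [← heq, List.mem_filter] at this
    have h2 := this.2
    simp only [decide_eq_true_eq] at h2
    exact absurd h2 (not_le.2 hxy)

theorem rk_pos {L : List ℕ+} {x : ℕ+} (hx : x ∈ L) : 0 < rk L x := by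
  unfold rk
  apply List.length_pos_of_mem (a := x)
  rw [List.mem_filter]; exact ⟨hx, by simp⟩

theorem rk_le {L : List ℕ+} {x : ℕ+} : rk L x ≤ L.length := List.length_filter_le _ _

theorem std_map (e : Equiv.Perm ℕ+) (w : List ℕ+)
    (he : ∀ x ∈ w, ∀ y ∈ w, (e y ≤ e x ↔ y ≤ x)) : std (w.map e) = std w := by
  rw [std_eq, std_eq, List.map_map]
  apply List.map_congr_left
  intro x hx
  simp only [Function.comp_apply, rk]
  rw [List.filter_map, List.length_map]
  congr 1
  apply List.filter_congr
  intro y hy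
  simp only [Function.comp_apply]
  rw [Bool.eq_iff_iff, decide_eq_true_iff, decide_eq_true_iff]
  exact he x hx y hy

theorem good_map (e : Equiv.Perm ℕ+) (w : List ℕ+)
    (he : ∀ x ∈ w, ∀ y ∈ w, (e y ≤ e x ↔ y ≤ x)) : good (w.map e) = good w := by
  unfold good
  rw [List.length_map]
  congr 1
  funext i
  rw [← List.map_rotate, std_map]
  intro x hx y hy
  exact he x (List.mem_rotate.1 hx) y (List.mem_rotate.1 hy)

theorem good_eq_of_std {w w' : List ℕ+} (h : std w = std w') : good w = good w' := by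
  unfold good
  have hl : w.length = w'.length := by rw [← std_length w, ← std_length w', h]
  rw [hl]
  congr 1
  funext i
  rw [std_rotate, std_rotate, h]

theorem isStatistic_cst : IsStatistic cst := by
  intro π σ h
  rw [cst_cyc, cst_cyc]
  exact good_eq_of_std h

/-- The mixed case: total length five, both words nonempty. -/
theorem mult_five {π σ : LinPerm} (hd : π.1.Disjoint σ.1) (h5 : π.1.length + σ.1.length = 5)
    (hπ : π.1 ≠ []) (hσ : σ.1 ≠ []) (v : Bool) :
    mult cst (shuffles π σ) v =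
      ((if π.1.length = 1 ∨ π.1.length = 4 then 2 else 6 : ℕ) : ℕ∞) := by
  set L : List ℕ+ := π.1 ++ σ.1 with hL
  have hLnd : L.Nodup := List.Nodup.append π.2 σ.2 hd
  have hLlen : L.length = 5 := by rw [hL, List.length_append, h5]
  -- the standardized word
  set L' : List ℕ+ := L.map (fun x => (rk L x).toPNat') with hL'
  have hval : ∀ x ∈ L, (((rk L x).toPNat' : ℕ+) : ℕ) = rk L x := by
    intro x hx
    rw [Nat.toPNat'_coe, if_pos (rk_pos hx)]
  have hmono : ∀ x ∈ L, ∀ y ∈ L, ((rk L y).toPNat' ≤ (rk L x).toPNat' ↔ y ≤ x) := by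
    intro x hx y hy
    rw [← PNat.coe_le_coe, hval x hx, hval y hy]
    constructor
    · intro h
      by_contra hc
      exact absurd (rk_lt hy (not_le.1 hc)) (not_lt.2 h)
    · intro h
      rcases h.lt_or_eq with h | h
      · exact (rk_lt hx h).le
      · rw [h]
  have hL'nd : L'.Nodup := by
    rw [hL', List.nodup_map_iff_inj_on hLnd]
    intro x hx y hy hxy
    apply le_antisymm
    · exact (hmono y hy x hx).1 hxy.le
    · exact (hmono x hx y hy).1 hxy.ge
  obtain ⟨e, he⟩ := exists_relabel L L' hLnd hL'nd (by rw [hL', List.length_map])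
  have hex : ∀ x ∈ L, e x = (rk L x).toPNat' := by
    have : L.map e = L.map (fun x => (rk L x).toPNat') := he
    exact List.map_inj_left.1 this
  have hemono : ∀ x ∈ L, ∀ y ∈ L, (e y ≤ e x ↔ y ≤ x) := by
    intro x hx y hy
    rw [hex x hx, hex y hy]
    exact hmono x hx y hy
  have hperm : L' ~ [(1:ℕ+),2,3,4,5] := by
    have hsub : L' ⊆ [(1:ℕ+),2,3,4,5] := by
      intro z hz
      rw [hL', List.mem_map] at hz
      obtain ⟨x, hx, rfl⟩ := hz
      have h1 := rk_pos hx
      have h2 : rk L x ≤ 5 := hLlen ▸ rk_le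
      interval_cases h3 : rk L x <;> decide
    refine (List.subperm_of_subset hL'nd hsub).perm_of_length_le ?_
    rw [hL', List.length_map, hLlen]
    decide
  have hrel : mult cst (shuffles (rl e π) (rl e σ)) v = mult cst (shuffles π σ) v := by
    apply mult_rl
    intro t ht
    obtain ⟨τ, rfl⟩ := exists_cyc t
    have hp := perm_of_mem_shuffles hd ht
    rw [rc_cyc, cst_cyc, cst_cyc]
    apply good_map
    intro x hx y hy
    exact hemono x (hp.mem_iff.1 hx) y (hp.mem_iff.1 hy)
  rw [← hrel]
  have happ : (rl e π).1 ++ (rl e σ).1 = L' := by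
    show π.1.map e ++ σ.1.map e = L'
    rw [← List.map_append, ← hL, he]
  have hd' : (rl e π).1.Disjoint (rl e σ).1 := by
    have : ((rl e π).1 ++ (rl e σ).1).Nodup := by rw [happ]; exact hL'nd
    exact List.disjoint_of_nodup_append this
  rw [mult_eq_cand hd' (by rw [happ]; exact hperm)]
  have hlen1 : (rl e π).1.length = π.1.length := by simp [rl]
  have hm1 : 0 < π.1.length := List.length_pos_iff.2 hπ
  have hm2 : 0 < σ.1.length := List.length_pos_iff.2 hσ
  have h1 : (rl e π).1 = L'.take π.1.length := by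
    rw [← happ, ← hlen1, List.take_left]
  have h2 : (rl e σ).1 = L'.drop π.1.length := by
    rw [← happ, ← hlen1, List.drop_left]
  have := finite_check L' (List.mem_permutations'.2 hperm) π.1.length (by
    have : π.1.length ≤ 4 := by omega
    interval_cases π.1.length <;> decide) v
  rw [h1, h2, this]

/-- If one of the words is empty there is only one shuffle. -/
theorem shuffles_nil {π σ : LinPerm} (h : π.1 = []) : shuffles π σ = {cyc σ} := by
  ext t
  constructor
  · rintro ⟨τ, rfl, hlen, _, ⟨s, hs, hs'⟩⟩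
    rw [h, List.length_nil, zero_add] at hlen
    have : s = τ.1 := hs'.eq_of_length (by rw [hs.perm.length_eq, hlen])
    rw [this] at hs
    show cyc τ = cyc σ
    apply Subtype.ext
    exact Cycle.coe_eq_coe.2 hs
  · rintro rfl
    refine ⟨σ, rfl, by rw [h, List.length_nil, zero_add], ⟨[], by rw [h], List.nil_sublist _⟩,
      ⟨σ.1, List.IsRotated.refl _, List.Sublist.refl _⟩⟩

theorem shuffles_comm (π σ : LinPerm) : shuffles π σ = shuffles σ π := by
  ext t
  constructor
  · rintro ⟨τ, h1, h2, h3, h4⟩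
    exact ⟨τ, h1, by rw [h2, add_comm], h4, h3⟩
  · rintro ⟨τ, h1, h2, h3, h4⟩
    exact ⟨τ, h1, by rw [h2, add_comm], h4, h3⟩

theorem isShuffleCompatible_cst : IsShuffleCompatible cst := by
  intro π σ π' σ' hd hd' hc1 hc2 hl1 hl2 v
  by_cases hπ : π.1 = []
  · have hπ' : π'.1 = [] := by
      apply List.length_eq_zero_iff.1
      rw [← hl1, hπ, List.length_nil]
    rw [shuffles_nil hπ, shuffles_nil hπ']
    unfold mult
    have : ∀ c : CycPerm, {t | t ∈ ({c} : Set CycPerm) ∧ cst t = v} =
        if cst c = v then {c} else ∅ := by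
      intro c
      ext t
      split_ifs with hv
      · simp only [Set.mem_singleton_iff, Set.mem_ofPred_eq]
        exact ⟨fun h => h.1, fun h => ⟨h, h ▸ hv⟩⟩
      · simp only [Set.mem_singleton_iff, Set.mem_ofPred_eq, Set.mem_empty_iff_false, iff_false]
        rintro ⟨rfl, h⟩
        exact hv h
    rw [this, this, hc2]
    split_ifs <;> simp
  by_cases hσ : σ.1 = []
  · have hσ' : σ'.1 = [] := by
      apply List.length_eq_zero_iff.1
      rw [← hl2, hσ, List.length_nil]
    rw [shuffles_comm, shuffles_comm π', shuffles_nil hσ, shuffles_nil hσ']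
    unfold mult
    have : ∀ c : CycPerm, {t | t ∈ ({c} : Set CycPerm) ∧ cst t = v} =
        if cst c = v then {c} else ∅ := by
      intro c
      ext t
      split_ifs with hv
      · simp only [Set.mem_singleton_iff, Set.mem_ofPred_eq]
        exact ⟨fun h => h.1, fun h => ⟨h, h ▸ hv⟩⟩
      · simp only [Set.mem_singleton_iff, Set.mem_ofPred_eq, Set.mem_empty_iff_false, iff_false]
        rintro ⟨rfl, h⟩
        exact hv h
    rw [this, this, hc1]
    split_ifs <;> simp
  by_cases h5 : π.1.length + σ.1.length = 5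
  · have hπ' : π'.1 ≠ [] := by
      intro h
      apply hπ
      apply List.length_eq_zero_iff.1
      rw [hl1, h, List.length_nil]
    have hσ' : σ'.1 ≠ [] := by
      intro h
      apply hσ
      apply List.length_eq_zero_iff.1
      rw [hl2, h, List.length_nil]
    rw [mult_five hd h5 hπ hσ, mult_five hd' (by omega) hπ' hσ', hl1]
  · obtain ⟨e, he⟩ := exists_relabel (π.1 ++ σ.1) (π'.1 ++ σ'.1) (List.Nodup.append π.2 σ.2 hd)
      (List.Nodup.append π'.2 σ'.2 hd') (by rw [List.length_append, List.length_append, hl1, hl2])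
    rw [List.map_append] at he
    obtain ⟨h1, h2⟩ := List.append_inj he (by rw [List.length_map, hl1])
    have e1 : rl e π = π' := Subtype.ext h1
    have e2 : rl e σ = σ' := Subtype.ext h2
    rw [← e1, ← e2, mult_rl]
    intro t ht
    obtain ⟨τ, rfl⟩ := exists_cyc t
    have hp := (perm_of_mem_shuffles hd ht).length_eq
    rw [List.length_append] at hp
    rw [rc_cyc, cst_cyc, cst_cyc]
    rw [good_false_of_length (w := τ.1) (by omega), good_false_of_length]
    simp only [rl, List.length_map]
    omega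

/-- There is a cyclic shuffle-compatible cyclic permutation statistic that is not a cyclic descent
statistic. -/
theorem result : ∃ cst : CycPerm → Bool, IsStatistic cst ∧ IsShuffleCompatible cst ∧
    ∃ c d : CycPerm, c.1.length = d.1.length ∧ cDesCyc c = cDesCyc d ∧ cst c ≠ cst d := by
  refine ⟨cst, isStatistic_cst, isShuffleCompatible_cst,
    cyc ⟨[5,1,3,2,4], by decide⟩, cyc ⟨[5,1,3,4,2], by decide⟩, rfl, ?_, ?_⟩
  · unfold cDesCyc cyc
    simp only [Cycle.lists_coe]
    decide +kernel
  · rw [cst_cyc, cst_cyc]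
    decide +kernel

end Pool.Agent.Results.MP_f664e7_co.NonDescentStatistic
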